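import Pool.Agent.W908.B.B6

/-!
# A tally set that is complete for exponential time
-/

set_option autoImplicit false

namespace Pool.Agent.W908.BS

open Pool.Agent.NPC Pool.Agent.H620R2.Gauge Pool.Agent.H622R2 Finset H568R2 Pool.Agent.H676
open Pool.Agent.W908 (IsUP mach mach_surj join)
open Pool.Agent.W908.UPH (stm poly_stm)
open Pool.Agent.W908.PS (cmb gq cmb_congr length_gq pwd length_pwd poly_unary)
open Pool.Agent.W908.QS (SolQ QuantumHardOnAverage)
open Pool.Agent.W908.SP (TT)

/-- the number of the bit `i` of the password of level `k` -/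
def nb (k i : ℕ) : ℕ := 2 * k ^ 2 + 2 * k + i

theorem nb_inj {k i k' i' : ℕ} (hi : i < 4 * k + 4) (hi' : i' < 4 * k' + 4)
    (h : nb k i = nb k' i') : k = k' ∧ i = i' := by
  unfold nb at h
  have h1 : k = k' := by
    rcases Nat.lt_trichotomy k k' with h2 | h2 | h2
    · exfalso
      obtain ⟨d, rfl⟩ := Nat.exists_eq_add_of_lt h2
      nlinarith
    · exact h2
    · exfalso
      obtain ⟨d, rfl⟩ := Nat.exists_eq_add_of_lt h2
      nlinarith
  subst h1
  exact ⟨rfl, by omega⟩

theorem exists_nb (N : ℕ) : ∃ k i, i < 4 * k + 4 ∧ N = nb k i := by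
  have h : ∃ k, N < 2 * (k + 1) ^ 2 + 2 * (k + 1) := ⟨N, by nlinarith⟩
  classical
  obtain ⟨k, hk, hmin⟩ : ∃ k, N < 2 * (k + 1) ^ 2 + 2 * (k + 1) ∧ ∀ j < k,
      ¬ N < 2 * (j + 1) ^ 2 + 2 * (j + 1) := ⟨Nat.find h, Nat.find_spec h, fun j hj =>
        Nat.find_min h hj⟩
  have h1 : 2 * k ^ 2 + 2 * k ≤ N := by
    cases k with
    | zero => simp
    | succ k => exact not_lt.1 (hmin k (Nat.lt_succ_self k))
  refine ⟨k, N - (2 * k ^ 2 + 2 * k), ?_, ?_⟩
  · have : 2 * (k + 1) ^ 2 + 2 * (k + 1) = 2 * k ^ 2 + 2 * k + (4 * k + 4) := by ring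
    omega
  · unfold nb
    omega

open Classical in
/-- the tally set -/
noncomputable def TB (W : Oracle) : Oracle := fun x =>
  decide (∃ k i, i < 4 * k + 4 ∧ x = List.replicate (nb k i) true ∧
    (pw W k).getD i false = true)

theorem TB_nb (W : Oracle) {k i : ℕ} (hi : i < 4 * k + 4) :
    TB W (List.replicate (nb k i) true) = (pw W k).getD i false := by
  classical
  unfold TB
  rw [Bool.eq_iff_iff, decide_eq_true_eq]
  constructor
  · rintro ⟨k', i', hi', h1, h2⟩
    have h3 := congrArg List.length h1
    rw [List.length_replicate, List.length_replicate] at h3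
    obtain ⟨rfl, rfl⟩ := nb_inj hi hi' h3
    exact h2
  · intro h
    exact ⟨k, i, hi, rfl, h⟩

/-! ### The reduction -/

/-- the questions for the password of level `k` -/
noncomputable def pqs (K : Polynomial ℕ) (x : List Bool) : List (List Bool) :=
  (List.range ((Polynomial.C 4 * K + Polynomial.C 4).eval x.length)).map (fun i =>
    true :: List.replicate ((Polynomial.C 2 * K ^ 2 + Polynomial.C 2 * K).eval x.length +
      min i ((Polynomial.C 4 * K + Polynomial.C 4).eval x.length)) true)

theorem poly_pqs (K : Polynomial ℕ) : Poly (pqs K) := by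
  have hN : UPoly (fun x : List Bool => (Polynomial.C 4 * K + Polynomial.C 4).eval x.length) :=
    UPoly.eval (UPoly.length Poly.id) _
  have h2 : UPoly (fun p : List Bool × ℕ =>
      (Polynomial.C 4 * K + Polynomial.C 4).eval p.1.length) :=
    UPoly.eval (UPoly.length (Poly.fst Poly.id)) _
  have h3 : UPoly (fun p : List Bool × ℕ =>
      min p.2 ((Polynomial.C 4 * K + Polynomial.C 4).eval p.1.length)) :=
    UPoly.of_le (NPC.Poly.min (Poly.snd Poly.id) h2.toPoly) h2 fun a => min_le_right _ _
  have h4 : UPoly (fun p : List Bool × ℕ =>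
      (Polynomial.C 2 * K ^ 2 + Polynomial.C 2 * K).eval p.1.length) :=
    UPoly.eval (UPoly.length (Poly.fst Poly.id)) _
  exact NPC.Poly.map (F := fun x i => true :: List.replicate
    ((Polynomial.C 2 * K ^ 2 + Polynomial.C 2 * K).eval x.length +
      min i ((Polynomial.C 4 * K + Polynomial.C 4).eval x.length)) true) hN.range
    (Poly.cons (NPC.Poly.const true) (poly_unary (UPoly.add h4 h3)))

theorem pqs_map (W : Oracle) (K : Polynomial ℕ) (x : List Bool) :
    (pqs K x).map (join (OB W) (TB W)) = pw W (K.eval x.length) := by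
  have hl : (Polynomial.C 4 * K + Polynomial.C 4).eval x.length = 4 * K.eval x.length + 4 := by
    simp
  have hl2 : (Polynomial.C 2 * K ^ 2 + Polynomial.C 2 * K).eval x.length =
      2 * (K.eval x.length) ^ 2 + 2 * K.eval x.length := by simp
  unfold pqs
  rw [hl, hl2, List.map_map]
  refine List.ext_getElem ?_ fun i h1 h2 => ?_
  · rw [List.length_map, List.length_range, length_pw]
  · rw [List.getElem_map, List.getElem_range]
    have h3 : i < 4 * K.eval x.length + 4 := by rwa [length_pw] at h2
    show TB W (List.replicate (2 * (K.eval x.length) ^ 2 + 2 * K.eval x.length + min i _) true) = _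
    rw [min_eq_left h3.le]
    exact (TB_nb W h3).trans (List.getD_eq_getElem _ _ h2)

/-- the last question -/
def lqs (e : List Bool) (p : Polynomial ℕ) (s : List Bool) : List (List Bool) :=
  [false :: true :: false :: true :: ((unpair s).2 ++ stm e p (unpair s).1)]

theorem poly_lqs (e : List Bool) (p : Polynomial ℕ) : Poly (lqs e p) :=
  Poly.cons (Poly.cons (NPC.Poly.const false) (Poly.cons (NPC.Poly.const true)
    (Poly.cons (NPC.Poly.const false) (Poly.cons (NPC.Poly.const true)
      (Poly.append (Poly.snd poly_unpair) ((poly_stm e p).comp (Poly.fst poly_unpair)))))))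
    (NPC.Poly.const [])

/-- exponential time reduces to the tally set -/
theorem exp_tally {W : Oracle} {L : Set (List Bool)} (hL : IsEXP (OB W) L) :
    IsP (join (OB W) (TB W)) L := by
  classical
  obtain ⟨e, p, K, h1, h2⟩ := exp_stm hL
  have g1 : IsFP (join (OB W) (TB W)) (fun x => pairBits x ((pqs K x).map (join (OB W) (TB W)))) :=
    IsFP.tt (H := fun q => pairBits q.1 q.2) (poly_pqs K)
      (poly_pairBits (Poly.fst Poly.id) (Poly.snd Poly.id))
  have g2 : IsFP (join (OB W) (TB W)) (fun s => (lqs e p s).map (join (OB W) (TB W))) :=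
    IsFP.tt (H := fun q => q.2) (poly_lqs e p) (Poly.snd Poly.id)
  refine ⟨_, g2.comp g1, fun x => ?_⟩
  simp only [pqs_map]
  unfold lqs
  simp only [unpair_pairBits, List.map_cons, List.map_nil, List.cons.injEq, and_true]
  show x ∈ L ↔ OB W (true :: false :: true :: (pw W (K.eval x.length) ++ stm e p x)) = true
  rw [OB_exp true (h2 x), decide_eq_true_eq]
  exact (h1 x).symm

/-! ### The tally set is in `UP` and `coUP` -/

/-- the certificate -/
def crt (k i : ℕ) (w : List Bool) : List Bool :=
  pairBits (List.replicate k true) (pairBits (List.replicate i true) w)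

/-- the question -/
def tqs (y : List Bool) : List (List Bool) :=
  [false :: true :: ((unpair (unpair (unpair y).1).2).2 ++ (unpair (unpair y).1).1)]

theorem poly_tqs : Poly tqs := by
  have h0 : Poly (fun y : List Bool => unpair (unpair y).1) :=
    poly_unpair.comp (Poly.fst poly_unpair)
  have h1 : Poly (fun y : List Bool => unpair (unpair (unpair y).1).2) :=
    poly_unpair.comp (Poly.snd h0)
  exact Poly.cons (Poly.cons (NPC.Poly.const false) (Poly.cons (NPC.Poly.const true)
    (Poly.append (Poly.snd h1) (Poly.fst h0)))) (NPC.Poly.const [])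

/-- the certificate `w` for `x` has the right form -/
def Fit (w x : List Bool) : Prop :=
  w = pairBits (List.replicate (unpair w).1.length true) (pairBits
    (List.replicate (unpair (unpair w).2).1.length true) (unpair (unpair w).2).2) ∧
  x = List.replicate ((Polynomial.C 2 * Polynomial.X ^ 2 + Polynomial.C 2 * Polynomial.X :
    Polynomial ℕ).eval (unpair w).1.length + (unpair (unpair w).2).1.length) true ∧
  (unpair (unpair w).2).2.length = (List.replicate ((Polynomial.C 4 * Polynomial.X +
    Polynomial.C 4 : Polynomial ℕ).eval (unpair w).1.length) true).length ∧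
  (unpair (unpair w).2).1.length < (List.replicate ((Polynomial.C 4 * Polynomial.X +
    Polynomial.C 4 : Polynomial ℕ).eval (unpair w).1.length) true).length

noncomputable instance (w x : List Bool) : Decidable (Fit w x) := by unfold Fit; infer_instance

/-- the verifier -/
noncomputable def tvr (b : Bool) (t : List Bool × List Bool) : List Bool :=
  if (unpair t.1).2 = List.replicate (unpair t.1).2.length true then
    (if Fit (unpair t.1).1 (unpair t.1).2 ∧ t.2 = [true] ∧
      (unpair (unpair (unpair t.1).1).2).2.getD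
        (unpair (unpair (unpair t.1).1).2).1.length false = b then [true] else [])
  else (if (unpair t.1).1 = [] ∧ b = false then [true] else [])

theorem poly_tvr (b : Bool) : Poly (tvr b) := by
  have hw : Poly (fun t : List Bool × List Bool => (unpair t.1).1) :=
    (Poly.fst poly_unpair).comp (Poly.fst Poly.id)
  have hx : Poly (fun t : List Bool × List Bool => (unpair t.1).2) :=
    (Poly.snd poly_unpair).comp (Poly.fst Poly.id)
  have h1 : Poly (fun t : List Bool × List Bool => unpair (unpair t.1).1) := poly_unpair.comp hw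
  have h2 : Poly (fun t : List Bool × List Bool => unpair (unpair (unpair t.1).1).2) :=
    poly_unpair.comp (Poly.snd h1)
  have u1 : UPoly (fun t : List Bool × List Bool => (unpair (unpair t.1).1).1.length) :=
    UPoly.length (Poly.fst h1)
  have u2 : UPoly (fun t : List Bool × List Bool =>
      (unpair (unpair (unpair t.1).1).2).1.length) := UPoly.length (Poly.fst h2)
  have u4 := UPoly.eval u1 (Polynomial.C 4 * Polynomial.X + Polynomial.C 4)
  have l4 := Poly.length (poly_unary u4)
  refine Poly.ite (Poly.decide_eq hx (poly_unary (UPoly.length hx))) (Poly.ite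
    (Poly.decide_and (Poly.decide_and (Poly.decide_eq hw (poly_pairBits
    (poly_unary u1) (poly_pairBits (poly_unary u2) (Poly.snd h2)))) (Poly.decide_and
    (Poly.decide_eq hx (poly_unary (UPoly.add (UPoly.eval u1 (Polynomial.C 2 *
      Polynomial.X ^ 2 + Polynomial.C 2 * Polynomial.X)) u2))) (Poly.decide_and
      (Poly.decide_eq (Poly.length (Poly.snd h2)) l4)
      (Poly.decide_lt (Poly.length (Poly.fst h2)) l4)))) (Poly.decide_and
      (Poly.decide_eq (show Poly (fun t : List Bool × List Bool => t.2) from Poly.snd Poly.id)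
        (NPC.Poly.const _)) (Poly.decide_eq (NPC.Poly.getD (Poly.snd h2)
          (Poly.length (Poly.fst h2)) (NPC.Poly.const false)) (NPC.Poly.const b))))
    (NPC.Poly.const _) (NPC.Poly.const _)) (Poly.ite (Poly.decide_and
      (Poly.decide_eq hw (NPC.Poly.const _)) (NPC.Poly.const _))
    (NPC.Poly.const _) (NPC.Poly.const _))

theorem fit_iff {w : List Bool} {N : ℕ} : Fit w (List.replicate N true) ↔
    ∃ k i v, w = crt k i v ∧ N = nb k i ∧ v.length = 4 * k + 4 ∧ i < 4 * k + 4 := by
  unfold Fit crt nb
  simp only [List.length_replicate, Polynomial.eval_add, Polynomial.eval_mul,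
    Polynomial.eval_C, Polynomial.eval_X, Polynomial.eval_pow]
  constructor
  · rintro ⟨h1, h2, h3, h4⟩
    refine ⟨_, _, _, h1, ?_, h3, h4⟩
    have h5 := congrArg List.length h2
    rwa [List.length_replicate, List.length_replicate] at h5
  · rintro ⟨k, i, v, rfl, h2, h3, h4⟩
    simp only [unpair_pairBits, List.length_replicate]
    exact ⟨trivial, by rw [h2], h3, h4⟩

theorem tvr_iff {W : Oracle} {b : Bool} {w : List Bool} {N : ℕ} :
    tvr b (pairBits w (List.replicate N true), (tqs (pairBits w (List.replicate N true))).map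
      (OB W)) = [true] ↔
    ∃ k i, i < 4 * k + 4 ∧ N = nb k i ∧ w = crt k i (pw W k) ∧ (pw W k).getD i false = b := by
  unfold tvr tqs
  simp only [unpair_pairBits, List.map_cons, List.map_nil, List.length_replicate]
  rw [if_pos trivial]
  constructor
  · intro h
    split_ifs at h with h1
    obtain ⟨h2, h3, h4⟩ := h1
    obtain ⟨k, i, v, rfl, hN, hv, hi⟩ := fit_iff.1 h2
    unfold crt at h3 h4
    simp only [unpair_pairBits, List.length_replicate] at h3 h4
    rw [OB_ck hv (List.length_replicate ..)] at h3
    simp only [List.cons.injEq, and_true, decide_eq_true_eq] at h3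
    rw [h3] at h4
    refine ⟨k, i, hi, hN, ?_, h4⟩
    unfold crt
    rw [h3]
  · rintro ⟨k, i, hi, hN, rfl, hb⟩
    rw [if_pos]
    refine ⟨fit_iff.2 ⟨k, i, _, rfl, hN, length_pw W k, hi⟩, ?_⟩
    unfold crt
    simp only [unpair_pairBits, List.length_replicate]
    rw [OB_ck (length_pw W k) (List.length_replicate ..), decide_eq_true rfl]
    exact ⟨rfl, hb⟩

theorem isUP_TB (W : Oracle) (b : Bool) : IsUP (OB W) {x | TB W x = b} := by
  classical
  have hun : ∀ x : List Bool, x = List.replicate x.length true ∨
      ¬ x = List.replicate x.length true := fun x => em _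
  have hneg : ∀ x w : List Bool, ¬ x = List.replicate x.length true →
      (tvr b (pairBits w x, (tqs (pairBits w x)).map (OB W)) = [true] ↔ w = [] ∧ b = false) := by
    intro x w hx
    unfold tvr
    simp only [unpair_pairBits]
    rw [if_neg hx]
    split_ifs with h
    · exact ⟨fun _ => h, fun _ => rfl⟩
    · exact ⟨fun h1 => absurd h1 (by simp), fun h1 => absurd h1 h⟩
  refine ⟨fun y => tvr b (y, (tqs y).map (OB W)), Polynomial.C 10 * Polynomial.X + Polynomial.C 10,
    IsFP.tt poly_tqs (poly_tvr b), fun x => ?_, fun x w w' _ _ h h' => ?_⟩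
  · rcases hun x with hx | hx
    · obtain ⟨k, i, hi, hN⟩ := exists_nb x.length
      have h1 : TB W x = (pw W k).getD i false := by
        rw [hx, hN]
        exact TB_nb W hi
      show TB W x = b ↔ _
      rw [h1]
      constructor
      · intro h
        refine ⟨crt k i (pw W k), ?_, ?_⟩
        · unfold crt
          rw [A2.length_pairBits, A2.length_pairBits, List.length_replicate,
            List.length_replicate, length_pw]
          simp only [Polynomial.eval_add, Polynomial.eval_mul, Polynomial.eval_C,
            Polynomial.eval_X]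
          unfold nb at hN
          nlinarith
        · rw [hx]
          exact tvr_iff.2 ⟨k, i, hi, hN, rfl, h⟩
      · rintro ⟨w, -, h⟩
        rw [hx] at h
        obtain ⟨k', i', hi', hN', -, h2⟩ := tvr_iff.1 h
        obtain ⟨rfl, rfl⟩ := nb_inj hi hi' (hN.symm.trans hN')
        exact h2
    · have h1 : TB W x = false := by
        unfold TB
        rw [decide_eq_false_iff_not]
        rintro ⟨k, i, -, h1, -⟩
        apply hx
        rw [h1, List.length_replicate]
      show TB W x = b ↔ _
      rw [h1]
      constructor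
      · intro h
        exact ⟨[], Nat.zero_le _, (hneg x [] hx).2 ⟨rfl, h.symm⟩⟩
      · rintro ⟨w, -, h⟩
        exact ((hneg x w hx).1 h).2.symm
  · rcases hun x with hx | hx
    · rw [hx] at h h'
      obtain ⟨k, i, hi, hN, h1, -⟩ := tvr_iff.1 h
      obtain ⟨k', i', hi', hN', h1', -⟩ := tvr_iff.1 h'
      obtain ⟨rfl, rfl⟩ := nb_inj hi hi' (hN.symm.trans hN')
      rw [h1, h1']
    · rw [((hneg x w hx).1 h).1, ((hneg x w' hx).1 h').1]

theorem main_tally : ∃ O T : Oracle, (∀ x : List Bool, T x = true → ∃ n,
      x = List.replicate n true) ∧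
    IsUP O {x | T x = true} ∧ IsUP O {x | T x = true}ᶜ ∧
    (∀ L : Set (List Bool), IsEXP O L → IsP (join O T) L) ∧
    ∃ L : Set (List Bool), IsUP O L ∧ IsUP O Lᶜ ∧ QuantumHardOnAverage O L := by
  classical
  obtain ⟨W, h2, h3⟩ := exists_WB
  refine ⟨OB W, TB W, fun x hx => ?_, isUP_TB W true, ?_, fun L hL => exp_tally hL,
    LB W, isUP_LB W, isUP_LBc W, quantumHardB h3⟩
  · unfold TB at hx
    rw [decide_eq_true_eq] at hx
    obtain ⟨k, i, -, h, -⟩ := hx
    exact ⟨_, h⟩
  · have h : {x | TB W x = true}ᶜ = {x | TB W x = false} := by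
      ext x
      simp
    rw [h]
    exact isUP_TB W false

end Pool.Agent.W908.BS
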